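import Pool.Agent.Helper40_Dio.FStmt

/-! # MBS: type `s` modulo `b` -/

set_option autoImplicit false

namespace Pool.Agent.DIO.H50

open Pool.Agent.DIO

/-- Even terms of the sequence modulo `c²` (first component) and `c` (second component). -/
theorem sqg_even (a c s z0 x0 : ℤ) (hs : s * s = a * c + 1) (m : ℕ) :
    ∃ k l : ℤ, (sqg a c s z0 x0 (2 * m)).1 =
        z0 + 2 * c * (a * z0 * (m : ℤ) ^ 2 + s * x0 * m) + c ^ 2 * k ∧
      (sqg a c s z0 x0 (2 * m)).2 = x0 + 2 * s * a * z0 * m + c * l := by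
  induction m with
  | zero => exact ⟨0, 0, by simp [sqg], by simp [sqg]⟩
  | succ m ih =>
    obtain ⟨k, l, h1, h2⟩ := ih
    have e : 2 * (m + 1) = 2 * m + 1 + 1 := by ring
    refine ⟨k + 4 * a * (a * z0 * (m : ℤ) ^ 2 + s * x0 * m) + 2 * a * c * k + 2 * s * l +
      4 * a ^ 2 * z0 * m, l + 2 * a * (x0 + 2 * s * a * z0 * m + c * l) +
      2 * s * a * (2 * (a * z0 * (m : ℤ) ^ 2 + s * x0 * m) + c * k), ?_, ?_⟩
    · rw [e]
      simp only [sqg]
      rw [h1, h2]
      push_cast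
      linear_combination (z0 + 2 * c * (a * z0 * (m : ℤ) ^ 2 + s * x0 * m) + c ^ 2 * k +
        4 * a * c * z0 * m) * hs
    · rw [e]
      simp only [sqg]
      rw [h1, h2]
      push_cast
      linear_combination (x0 + 2 * s * a * z0 * m + c * l) * hs

theorem sqg_swap (a c s z0 x0 : ℤ) (m : ℕ) :
    sqg a c s z0 x0 m = ((sqg c a s x0 z0 m).2, (sqg c a s x0 z0 m).1) := by
  induction m with
  | zero => rfl
  | succ m ih => simp only [sqg, ih]

theorem mbs : MbsStatement := by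
  intro a b c r s t g u v w x y z ε μ ν lam hN hS hl
  obtain ⟨hε, hν, -, h2⟩ := hS
  have hr : (r : ℤ) * r = a * b + 1 := by exact_mod_cast hN.hr
  have ht : (t : ℤ) * t = b * c + 1 := by exact_mod_cast hN.ht
  have hu : (u : ℤ) * u = a * g + 1 := by exact_mod_cast hN.hu
  have hc : (c : ℤ) = a + b + g + 2 * a * b * g + 2 * (r * (u * v)) := by exact_mod_cast hN.hc
  have hteq : (t : ℤ) = b * u + r * v := by exact_mod_cast hN.t_eq
  have hueq : (u : ℤ) + a * t = r * s := by exact_mod_cast hN.u_eq'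
  have hb : (b : ℤ) ≠ 0 := by exact_mod_cast hN.hb.ne'
  -- 2 r s t
  have hrst : 2 * ((r : ℤ) * s * t) = a + b + c - g + 2 * a * b * c := by
    have e1 : (r : ℤ) * s * t = t * u + a * (t * t) := by rw [← hueq]; ring
    have e2 : (t : ℤ) * u = b * (u * u) + r * (u * v) := by rw [hteq]; ring
    rw [e1, e2, hu, ht]
    linear_combination -hc
  obtain ⟨k1, l1, e1, e2⟩ := sqg_even a b r 1 1 hr lam
  obtain ⟨k2, l2, e3, -⟩ := sqg_even c b t r (ε * s) (by rw [ht]; ring) ν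
  have hy1 : y = r * (1 + 2 * b * (a * 1 * (lam : ℤ) ^ 2 + r * 1 * lam) + b ^ 2 * k1) +
      b * (1 + 2 * r * a * 1 * lam + b * l1) := by
    rw [← e1, ← e2]
    have := congrArg Prod.fst hl
    simp only [sqg] at this
    exact this.symm
  have hy2 : y = r + 2 * b * (c * r * (ν : ℤ) ^ 2 + t * (ε * s) * ν) + b ^ 2 * k2 := by
    rw [← e3]
    have := congrArg Prod.snd h2
    rw [sqg_swap] at this
    exact this.symm
  -- divide by b
  have h3 : 2 * a * r * (lam : ℤ) ^ 2 + 2 * (r * r) * lam + 1 + 2 * r * a * lam -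
      2 * (c * r * (ν : ℤ) ^ 2 + t * (ε * s) * ν) = b * (k2 - r * k1 - l1) := by
    apply mul_left_cancel₀ hb
    linear_combination hy2 - hy1
  refine ⟨r * (k2 - r * k1 - l1) - (2 * a ^ 2 * (lam : ℤ) ^ 2 + 2 * a * r * lam +
    2 * a ^ 2 * lam - 2 * a * c * (ν : ℤ) ^ 2 - ε * ν * (1 + 2 * a * c)), ?_⟩
  linear_combination r * h3 - (2 * a * (lam : ℤ) ^ 2 + 2 * r * lam + 2 * a * lam -
    2 * c * (ν : ℤ) ^ 2) * hr + ε * ν * hrst

end Pool.Agent.DIO.H50
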