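import Pool.Agent.Helper50_DIO.Core

/-! # PS1: type `s`, small cases -/

set_option autoImplicit false

namespace Pool.Agent.DIO.H50

open Pool.Agent.DIO

theorem u_ne {n e : ℤ} (hn : 1 ≤ n) (he : e = 1 ∨ e = -1) : -2 * e * n ^ 2 - n ≠ 0 := by
  have h1 : n ≤ n ^ 2 := by nlinarith
  rcases he with rfl | rfl
  · intro h; linarith
  · intro h; linarith

theorem ps1 (hI : IrrStatement) : Ps1Statement := by
  intro a b c r s t g u v w ε μ ν Y hab hN hε hν hY hμ hνY hdiv hcase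
  obtain ⟨hac, hbc, hgc, hsc, htc⟩ := ned_le hN
  obtain ⟨k, hk⟩ := hdiv
  have hY' : (100 : ℤ) ≤ (Y : ℤ) := by exact_mod_cast hY
  have hμ' : (μ : ℤ) ≤ Y := by exact_mod_cast hμ
  have hν' : (ν : ℤ) ≤ Y := by exact_mod_cast hνY
  have hν1 : (1 : ℤ) ≤ ν := by exact_mod_cast hν
  have hμ0 : (0 : ℤ) ≤ μ := Int.natCast_nonneg _
  have hν0 : (0 : ℤ) ≤ ν := Int.natCast_nonneg _
  have ha0 : (0 : ℤ) ≤ a := Int.natCast_nonneg _
  have hb0 : (0 : ℤ) ≤ b := Int.natCast_nonneg _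
  have hg0 : (0 : ℤ) ≤ g := Int.natCast_nonneg _
  have hs0 : (0 : ℤ) ≤ s := Int.natCast_nonneg _
  have hc0 : (0 : ℤ) < c := by exact_mod_cast (by omega : 0 < c)
  have hac' : (a : ℤ) ≤ c := by exact_mod_cast hac.le
  have hbc' : (b : ℤ) ≤ c := by exact_mod_cast hbc.le
  have hgc' : (g : ℤ) ≤ c := by exact_mod_cast hgc.le
  have hsc' : (s : ℤ) ≤ c := by exact_mod_cast hsc
  have hX : |relS a b g s ε μ ν| ≤ 10 * (Y : ℤ) ^ 2 * c :=
    rel_bd ha0 hac' hb0 hbc' hg0 hgc' hs0 hsc' hμ0 hμ' hν0 hν' (by linarith) hε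
  have hkb := quot_bd hc0 hX hk
  have hc : (c : ℤ) = a + b + g + 2 * a * b * g + 2 * (r * (u * v)) := by exact_mod_cast hN.hc
  have hs1 : (1 : ℤ) ≤ s := by
    have : 0 < s := Nat.pos_of_ne_zero fun h => by have := hN.hs; rw [h] at this; omega
    exact_mod_cast this
  unfold relS at hk
  obtain ⟨hY2, hY3⟩ := small_bd hY'
  have hYY : (Y : ℤ) ≤ (Y : ℤ) ^ 2 := by nlinarith
  have hν2 : (ν : ℤ) ^ 2 ≤ (Y : ℤ) ^ 2 := pow_le_pow_left₀ hν0 hν' 2
  have hν20 : (0 : ℤ) ≤ (ν : ℤ) ^ 2 := by positivity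
  have p2 : (0 : ℤ) ≤ s * (2 * μ + 1) := by positivity
  have q2 : (s : ℤ) * (2 * μ + 1) ≤ 3 * Y * s := by
    rw [mul_comm]; exact mul_le_mul_of_nonneg_right (by linarith) hs0
  have hT0 : (0 : ℤ) ≤ (Y : ℤ) ^ 420 := by positivity
  have hY0 : (0 : ℤ) ≤ Y := by linarith
  rcases hcase with hP | hP
  · -- a g small
    have hP' : ((a * g : ℕ) : ℤ) ≤ (Y : ℤ) ^ 420 := by exact_mod_cast hP
    have hag : a ≤ a * g := Nat.le_mul_of_pos_right a hN.hg
    have hga : g ≤ a * g := Nat.le_mul_of_pos_left g hN.ha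
    have ha' : (a : ℤ) ≤ (Y : ℤ) ^ 420 := by exact_mod_cast hag.trans hP
    have hg' : (g : ℤ) ≤ (Y : ℤ) ^ 420 := by exact_mod_cast hga.trans hP
    have hu : (u : ℤ) * u = (a * g : ℕ) + 1 := by exact_mod_cast hN.hu
    obtain ⟨c1, c2, -⟩ := coef_bd hY' hkb (Int.natCast_nonneg _) hP' (Int.natCast_nonneg u) hu
    push_cast at c1
    have hR := rest_bd (P5 := 0) (P3 := 0) (S := s) hY' hε
      (by positivity : (0 : ℤ) ≤ a * μ * (μ + 1)) (mul_bd1 ha' hμ0 hμ' hT0) p2 q2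
      le_rfl (by positivity) (by positivity : (0 : ℤ) ≤ a * ν) (mul_le_mul ha' hν' hν0 hT0)
      le_rfl (by positivity) (by positivity : (0 : ℤ) ≤ g * ν) (mul_le_mul hg' hν' hν0 hT0)
      (quot_mul_bd hkb ha0 ha' hg0 hg')
    have hlast := irr_use hI (A := a) (G := g) (B := b) (N := r * v) (u := u)
      (U := -2 * ε * (ν : ℤ) ^ 2 - ν - k * (1 + 2 * (a * g))) (V := -(2 * u * k))
      (Y := Y) (S := s) hN.ha hN.hg hN.hb hN.hu ?_ hY' ha' hg' ?_ ?_ ?_ ?_ hs1 hR ?_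
    · exact end_bd hY (by
        calc c ≤ 16 * (a * b * g) := hN.c_le
          _ = 16 * (a * g * b) := by ring) hP hlast
    · calc r * v * (r * v) = (r * r) * (v * v) := by ring
        _ = (a * b + 1) * (g * b + 1) := by rw [hN.hr, hN.hv, mul_comm b g]
    · rw [abs_le] at c1 ⊢
      obtain ⟨c3, c4⟩ := c1
      rcases hε with rfl | rfl
      · constructor <;> linarith
      · constructor <;> linarith
    · rw [abs_neg]
      exact c2.trans (by linarith)
    · rintro ⟨h1, h2⟩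
      have hu0 : (u : ℤ) ≠ 0 := by
        intro h; rw [h] at hu; have := Int.natCast_nonneg (a * g); linarith
      have hk0 : k = 0 := by
        rcases mul_eq_zero.1 (neg_eq_zero.1 h2) with h | h
        · exact absurd (by linarith) hu0
        · exact h
      rw [hk0] at h1
      exact u_ne hν1 hε (by linarith)
    · push_cast
      rw [hc] at hk
      linear_combination hk
    · exact sq_bd hY (by
        calc c ≤ 16 * (a * b * g) := hN.c_le
          _ = 16 * (a * g * b) := by ring) hP (hag.trans hP) hN.hb hN.hs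
  · -- a b small
    have hP' : ((a * b : ℕ) : ℤ) ≤ (Y : ℤ) ^ 420 := by exact_mod_cast hP
    have hag : a ≤ a * b := Nat.le_mul_of_pos_right a hN.hb
    have hga : b ≤ a * b := Nat.le_mul_of_pos_left b hN.ha
    have ha' : (a : ℤ) ≤ (Y : ℤ) ^ 420 := by exact_mod_cast hag.trans hP
    have hb' : (b : ℤ) ≤ (Y : ℤ) ^ 420 := by exact_mod_cast hga.trans hP
    have hr : (r : ℤ) * r = (a * b : ℕ) + 1 := by exact_mod_cast hN.hr
    obtain ⟨c1, c2, -⟩ := coef_bd hY' hkb (Int.natCast_nonneg _) hP' (Int.natCast_nonneg r) hr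
    push_cast at c1
    have hR := rest_bd (P6 := 0) (S := s) hY' hε
      (by positivity : (0 : ℤ) ≤ a * μ * (μ + 1)) (mul_bd1 ha' hμ0 hμ' hT0) p2 q2
      (by positivity : (0 : ℤ) ≤ b * (ν : ℤ) ^ 2) (mul_bd2 hb' hν0 hν' hT0)
      (by positivity : (0 : ℤ) ≤ a * ν) (mul_le_mul ha' hν' hν0 hT0)
      (by positivity : (0 : ℤ) ≤ b * ν) (mul_le_mul hb' hν' hν0 hT0)
      le_rfl (by positivity) (quot_mul_bd hkb ha0 ha' hb0 hb')
    have hlast := irr_use hI (A := a) (G := b) (B := g) (N := u * v) (u := r)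
      (U := ν - k * (1 + 2 * (a * b))) (V := -(2 * r * k))
      (Y := Y) (S := s) hN.ha hN.hb hN.hg hN.hr ?_ hY' ha' hb' ?_ ?_ ?_ ?_ hs1 hR ?_
    · exact end_bd hY hN.c_le hP hlast
    · calc u * v * (u * v) = (u * u) * (v * v) := by ring
        _ = (a * g + 1) * (b * g + 1) := by rw [hN.hu, hN.hv]
    · rw [abs_le] at c1 ⊢
      obtain ⟨c3, c4⟩ := c1
      constructor <;> linarith
    · rw [abs_neg]
      exact c2.trans (by linarith)
    · rintro ⟨h1, h2⟩
      have hr0 : (r : ℤ) ≠ 0 := by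
        intro h; rw [h] at hr; have := Int.natCast_nonneg (a * b); linarith
      have hk0 : k = 0 := by
        rcases mul_eq_zero.1 (neg_eq_zero.1 h2) with h | h
        · exact absurd (by linarith) hr0
        · exact h
      rw [hk0] at h1
      linarith
    · push_cast
      rw [hc] at hk
      linear_combination hk
    · exact sq_bd hY hN.c_le hP (hag.trans hP) hN.hg hN.hs

end Pool.Agent.DIO.H50
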