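import Pool.Agent.Helper50_DIO.Core

/-! # PT1: type `t`, small cases -/

set_option autoImplicit false

namespace Pool.Agent.DIO.H50

open Pool.Agent.DIO

/-- Bound for the coefficient of `b` in case I. -/
theorem u_bd {n m e u w Y : ℤ} (hY : 100 ≤ Y) (he : e = 1 ∨ e = -1) (hn0 : 0 ≤ n)
    (hn : n ≤ Y) (hm0 : 0 ≤ m) (hm : m ≤ Y) (hu0 : 0 ≤ u) (hu : u ≤ 2 * Y ^ 420)
    (hw : |w| ≤ 23 * Y ^ 422) :
    |2 * e * (n * (n + 1)) + u * (2 * n + 1) - m - w| ≤ Y ^ 423 := by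
  obtain ⟨hY2, hY3⟩ := small_bd hY
  have h1 : n * (n + 1) ≤ Y * (2 * Y) := mul_le_mul hn (by linarith) (by linarith) (by linarith)
  have h1' : 0 ≤ n * (n + 1) := by positivity
  have h1'' : Y * (2 * Y) = 2 * Y ^ 2 := by ring
  have h2 : u * (2 * n + 1) ≤ 2 * Y ^ 420 * (3 * Y) :=
    mul_le_mul hu (by linarith) (by linarith) (by positivity)
  have h2' : 0 ≤ u * (2 * n + 1) := by positivity
  have h2'' : 2 * Y ^ 420 * (3 * Y) ≤ 6 * Y ^ 422 := by
    have e1 : 2 * Y ^ 420 * (3 * Y) = 6 * (Y ^ 420 * Y) := by ring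
    have e2 : Y ^ 422 = Y ^ 420 * Y * Y := by ring
    rw [e1, e2]
    have : Y ^ 420 * Y ≤ Y ^ 420 * Y * Y :=
      le_mul_of_one_le_right (by positivity) (by linarith)
    linarith
  have h3 : m ≤ Y ^ 422 := by
    have : Y ≤ Y ^ 2 := by nlinarith
    linarith
  rw [abs_le] at hw ⊢
  obtain ⟨h5, h6⟩ := hw
  rcases he with rfl | rfl
  · constructor <;> linarith
  · constructor <;> linarith

theorem pt1 (hI : IrrStatement) : Pt1Statement := by
  intro a b c r s t g u v w ε μ ν Y hab hN hε hμ1 hY hμ hνY hdiv hcase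
  obtain ⟨hac, hbc, hgc, hsc, htc⟩ := ned_le hN
  obtain ⟨k, hk⟩ := hdiv
  have hY' : (100 : ℤ) ≤ (Y : ℤ) := by exact_mod_cast hY
  have hμ' : (μ : ℤ) ≤ Y := by exact_mod_cast hμ
  have hν' : (ν : ℤ) ≤ Y := by exact_mod_cast hνY
  have hμ1' : (1 : ℤ) ≤ μ := by exact_mod_cast hμ1
  have hμ0 : (0 : ℤ) ≤ μ := Int.natCast_nonneg _
  have hν0 : (0 : ℤ) ≤ ν := Int.natCast_nonneg _
  have ha0 : (0 : ℤ) ≤ a := Int.natCast_nonneg _
  have hb0 : (0 : ℤ) ≤ b := Int.natCast_nonneg _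
  have hg0 : (0 : ℤ) ≤ g := Int.natCast_nonneg _
  have ht0 : (0 : ℤ) ≤ t := Int.natCast_nonneg _
  have hc0 : (0 : ℤ) < c := by exact_mod_cast (by omega : 0 < c)
  have hac' : (a : ℤ) ≤ c := by exact_mod_cast hac.le
  have hbc' : (b : ℤ) ≤ c := by exact_mod_cast hbc.le
  have hgc' : (g : ℤ) ≤ c := by exact_mod_cast hgc.le
  have htc' : (t : ℤ) ≤ c := by exact_mod_cast htc
  have hX : |relT a b g t ε μ ν| ≤ 10 * (Y : ℤ) ^ 2 * c := by
    have h := rel_bd hb0 hbc' ha0 hac' hg0 hgc' ht0 htc' hν0 hν' hμ0 hμ' (by linarith) hε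
    have e : relT a b g t ε μ ν = 2 * ε * b * ν * (ν + 1) + t * (2 * ν + 1) -
      2 * ε * a * (μ : ℤ) ^ 2 - (b + a - g) * μ := by unfold relT; ring
    rw [e]; exact h
  have hkb := quot_bd hc0 hX hk
  have hc : (c : ℤ) = a + b + g + 2 * a * b * g + 2 * (r * (u * v)) := by exact_mod_cast hN.hc
  have hteq : (t : ℤ) = b * u + r * v := by exact_mod_cast hN.t_eq
  have ht1 : (1 : ℤ) ≤ t := by
    have : 0 < t := Nat.pos_of_ne_zero fun h => by have := hN.ht; rw [h] at this; omega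
    exact_mod_cast this
  unfold relT at hk
  obtain ⟨hY2, hY3⟩ := small_bd hY'
  have hYY : (Y : ℤ) ≤ (Y : ℤ) ^ 2 := by nlinarith
  have hT0 : (0 : ℤ) ≤ (Y : ℤ) ^ 420 := by positivity
  have hY0 : (0 : ℤ) ≤ Y := by linarith
  rcases hcase with hP | hP
  · -- a g small
    have hP' : ((a * g : ℕ) : ℤ) ≤ (Y : ℤ) ^ 420 := by exact_mod_cast hP
    have hag : a ≤ a * g := Nat.le_mul_of_pos_right a hN.hg
    have hga : g ≤ a * g := Nat.le_mul_of_pos_left g hN.ha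
    have ha' : (a : ℤ) ≤ (Y : ℤ) ^ 420 := by exact_mod_cast hag.trans hP
    have hg' : (g : ℤ) ≤ (Y : ℤ) ^ 420 := by exact_mod_cast hga.trans hP
    have hu : (u : ℤ) * u = (a * g : ℕ) + 1 := by exact_mod_cast hN.hu
    obtain ⟨c1, c2, c3⟩ := coef_bd hY' hkb (Int.natCast_nonneg _) hP' (Int.natCast_nonneg u) hu
    push_cast at c1
    have hR := rest_bd (P1 := 0) (P2 := 0) (P5 := 0) (S := 1) hY' hε
      le_rfl (by positivity) le_rfl (by positivity)
      (by positivity : (0 : ℤ) ≤ a * (μ : ℤ) ^ 2) (mul_bd2 ha' hμ0 hμ' hT0)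
      (by positivity : (0 : ℤ) ≤ a * μ) (mul_le_mul ha' hμ' hμ0 hT0)
      le_rfl (by positivity) (by positivity : (0 : ℤ) ≤ g * μ) (mul_le_mul hg' hμ' hμ0 hT0)
      (quot_mul_bd hkb ha0 ha' hg0 hg')
    have hlast := irr_use hI (A := a) (G := g) (B := b) (N := r * v) (u := u)
      (U := 2 * ε * (ν * (ν + 1)) + u * (2 * ν + 1) - μ - k * (1 + 2 * (a * g)))
      (V := (2 * ν + 1) - 2 * u * k)
      (Y := Y) (S := 1) hN.ha hN.hg hN.hb hN.hu ?_ hY' ha' hg' ?_ ?_ ?_ ?_ le_rfl hR ?_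
    · exact end_bd hY (by
        calc c ≤ 16 * (a * b * g) := hN.c_le
          _ = 16 * (a * g * b) := by ring) hP hlast
    · calc r * v * (r * v) = (r * r) * (v * v) := by ring
        _ = (a * b + 1) * (g * b + 1) := by rw [hN.hr, hN.hv, mul_comm b g]
    · exact u_bd hY' hε hν0 hν' hμ0 hμ' (Int.natCast_nonneg u) c3 c1
    · rw [abs_le] at c2 ⊢
      obtain ⟨c4, c5⟩ := c2
      have h1 : (2 : ℤ) * ν + 1 ≤ 3 * (Y : ℤ) ^ 422 := by linarith
      have h2 : (0 : ℤ) ≤ (Y : ℤ) ^ 422 := by positivity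
      constructor <;> linarith
    · rintro ⟨-, h2⟩
      have h3 : (2 * (u * k - ν) : ℤ) = 1 := by linarith
      omega
    · push_cast
      rw [hc, hteq] at hk
      linear_combination hk
    · have hb1 : (1 : ℤ) ≤ b := by exact_mod_cast hN.hb
      have h1 : (1 : ℤ) ≤ (Y : ℤ) ^ 842 := one_le_pow₀ (by linarith)
      calc (1 : ℤ) ^ 2 = 1 * 1 := by ring
        _ ≤ (Y : ℤ) ^ 842 * b := mul_le_mul h1 hb1 (by norm_num) (by positivity)
  · -- a b small
    have hP' : ((a * b : ℕ) : ℤ) ≤ (Y : ℤ) ^ 420 := by exact_mod_cast hP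
    have hag : a ≤ a * b := Nat.le_mul_of_pos_right a hN.hb
    have hga : b ≤ a * b := Nat.le_mul_of_pos_left b hN.ha
    have ha' : (a : ℤ) ≤ (Y : ℤ) ^ 420 := by exact_mod_cast hag.trans hP
    have hb' : (b : ℤ) ≤ (Y : ℤ) ^ 420 := by exact_mod_cast hga.trans hP
    have hr : (r : ℤ) * r = (a * b : ℕ) + 1 := by exact_mod_cast hN.hr
    obtain ⟨c1, c2, -⟩ := coef_bd hY' hkb (Int.natCast_nonneg _) hP' (Int.natCast_nonneg r) hr
    push_cast at c1
    have p2 : (0 : ℤ) ≤ t * (2 * ν + 1) := by positivity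
    have q2 : (t : ℤ) * (2 * ν + 1) ≤ 3 * Y * t := by
      rw [mul_comm]; exact mul_le_mul_of_nonneg_right (by linarith) ht0
    have hR := rest_bd (P6 := 0) (S := t) hY' hε
      (by positivity : (0 : ℤ) ≤ b * ν * (ν + 1)) (mul_bd1 hb' hν0 hν' hT0) p2 q2
      (by positivity : (0 : ℤ) ≤ a * (μ : ℤ) ^ 2) (mul_bd2 ha' hμ0 hμ' hT0)
      (by positivity : (0 : ℤ) ≤ a * μ) (mul_le_mul ha' hμ' hμ0 hT0)
      (by positivity : (0 : ℤ) ≤ b * μ) (mul_le_mul hb' hμ' hμ0 hT0)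
      le_rfl (by positivity) (quot_mul_bd hkb ha0 ha' hb0 hb')
    have hlast := irr_use hI (A := a) (G := b) (B := g) (N := u * v) (u := r)
      (U := μ - k * (1 + 2 * (a * b))) (V := -(2 * r * k))
      (Y := Y) (S := t) hN.ha hN.hb hN.hg hN.hr ?_ hY' ha' hb' ?_ ?_ ?_ ?_ ht1 hR ?_
    · exact end_bd hY hN.c_le hP hlast
    · calc u * v * (u * v) = (u * u) * (v * v) := by ring
        _ = (a * g + 1) * (b * g + 1) := by rw [hN.hu, hN.hv]
    · rw [abs_le] at c1 ⊢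
      obtain ⟨c3, c4⟩ := c1
      constructor <;> linarith
    · rw [abs_neg]
      exact c2.trans (by linarith)
    · rintro ⟨h1, h2⟩
      have hr0 : (r : ℤ) ≠ 0 := by
        intro h; rw [h] at hr; have := Int.natCast_nonneg (a * b); linarith
      have hk0 : k = 0 := by
        rcases mul_eq_zero.1 (neg_eq_zero.1 h2) with h | h
        · exact absurd (by linarith) hr0
        · exact h
      rw [hk0] at h1
      linarith
    · push_cast
      rw [hc] at hk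
      linear_combination hk
    · exact sq_bd hY hN.c_le hP (hga.trans hP) hN.hg hN.ht

end Pool.Agent.DIO.H50
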