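import Pool.Agent.Helper40_Dio.FStmt

/-! # Common part of PS1 and PT1 -/

set_option autoImplicit false

namespace Pool.Agent.DIO.H50

open Pool.Agent.DIO

/-- Sizes in `NEd`. -/
theorem ned_le {a b c r s t g u v w : ℕ} (hN : NEd a b c r s t g u v w) :
    a < c ∧ b < c ∧ g < c ∧ s ≤ c ∧ t ≤ c := by
  have h1 := hN.ha
  have h2 := hN.hb
  have h3 := hN.hg
  have h4 := hN.hc
  have h5 : a < c := by
    have : a + b + g ≤ c := by rw [h4]; omega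
    omega
  have h6 : b < c := by
    have : a + b + g ≤ c := by rw [h4]; omega
    omega
  have h7 : g < c := by
    have : a + b + g ≤ c := by rw [h4]; omega
    omega
  refine ⟨h5, h6, h7, ?_, ?_⟩
  · by_contra hcon
    have h8 := hN.hs
    have h9 : (c + 1) * (c + 1) ≤ s * s := Nat.mul_le_mul (by omega) (by omega)
    have h10 : a * c ≤ c * c := Nat.mul_le_mul_right c h5.le
    nlinarith
  · by_contra hcon
    have h8 := hN.ht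
    have h9 : (c + 1) * (c + 1) ≤ t * t := Nat.mul_le_mul (by omega) (by omega)
    have h10 : b * c ≤ c * c := Nat.mul_le_mul_right c h6.le
    nlinarith

/-- `a μ (μ + 1) ≤ T Y (Y + 1)`. -/
theorem mul_bd1 {a m T Y : ℤ} (h1 : a ≤ T) (hm0 : 0 ≤ m) (hm : m ≤ Y)
    (hT : 0 ≤ T) : a * m * (m + 1) ≤ T * Y * (Y + 1) := by
  have h2 : a * m ≤ T * Y := mul_le_mul h1 hm hm0 hT
  exact mul_le_mul h2 (by linarith) (by linarith) (mul_nonneg hT (hm0.trans hm))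

theorem mul_bd2 {a m T Y : ℤ} (h1 : a ≤ T) (hm0 : 0 ≤ m) (hm : m ≤ Y)
    (hT : 0 ≤ T) : a * m ^ 2 ≤ T * Y ^ 2 := by
  have h2 : a * m ≤ T * Y := mul_le_mul h1 hm hm0 hT
  have h3 : a * m * m ≤ T * Y * Y := mul_le_mul h2 hm hm0 (mul_nonneg hT (hm0.trans hm))
  calc a * m ^ 2 = a * m * m := by ring
    _ ≤ T * Y * Y := h3
    _ = T * Y ^ 2 := by ring

/-- The use of IRR. -/
theorem irr_use (hI : IrrStatement) {A G B N u : ℕ} {U V R Y S : ℤ} (hA : 0 < A) (hG : 0 < G)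
    (hB : 0 < B) (hu : u * u = A * G + 1) (hN : N * N = (A * B + 1) * (G * B + 1))
    (hY : 100 ≤ Y) (hA' : (A : ℤ) ≤ Y ^ 420) (hG' : (G : ℤ) ≤ Y ^ 420) (hU : |U| ≤ Y ^ 423)
    (hV : |V| ≤ Y ^ 423) (h0 : ¬ (U = 0 ∧ V = 0)) (hR : U * B + V * N = R)
    (hS : 1 ≤ S) (hRS : |R| ≤ Y ^ 423 + 3 * Y * S) (hSB : S ^ 2 ≤ Y ^ 842 * B) :
    (B : ℤ) ≤ Y ^ 4228 := by
  have hY0 : 0 < Y := by linarith
  have hY1 : 1 ≤ Y := by linarith
  have h423 : (1 : ℤ) ≤ Y ^ 423 := one_le_pow₀ hY1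
  have h3 : Y ^ 420 ≤ Y ^ 423 := pow_le_pow_right₀ hY1 (by norm_num)
  have h4 : Y ≤ Y ^ 423 := by
    calc Y = Y ^ 1 := (pow_one Y).symm
      _ ≤ Y ^ 423 := pow_le_pow_right₀ hY1 (by norm_num)
  rcases hI A G B N u U V (Y ^ 423) hA hG hB hu hN h423 (hA'.trans h3) (hG'.trans h3) hU hV with
    h | h
  · exact absurd h h0
  · rw [hR] at h
    have h5 : |R| + 1 ≤ 5 * Y ^ 423 * S := by
      have a1 : Y ^ 423 ≤ Y ^ 423 * S := le_mul_of_one_le_right (by positivity) hS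
      have a2 : 3 * Y * S ≤ 3 * Y ^ 423 * S := by
        have := mul_le_mul_of_nonneg_right h4 (by linarith : (0 : ℤ) ≤ 3 * S)
        calc 3 * Y * S = Y * (3 * S) := by ring
          _ ≤ Y ^ 423 * (3 * S) := this
          _ = 3 * Y ^ 423 * S := by ring
      have a3 : (1 : ℤ) ≤ Y ^ 423 * S := h423.trans a1
      linarith
    have h6 : (B : ℤ) ≤ Y ^ 1693 * S := by
      calc (B : ℤ) ≤ 10 * (Y ^ 423) ^ 3 * (|R| + 1) := h
        _ ≤ 10 * (Y ^ 423) ^ 3 * (5 * Y ^ 423 * S) :=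
          mul_le_mul_of_nonneg_left h5 (by positivity)
        _ = 50 * (Y ^ 1692 * S) := by ring
        _ ≤ Y * (Y ^ 1692 * S) := mul_le_mul_of_nonneg_right (by linarith) (by positivity)
        _ = Y ^ 1693 * S := by ring
    have hB0 : (0 : ℤ) < B := by exact_mod_cast hB
    have h7 : (B : ℤ) * B ≤ Y ^ 4228 * B := by
      calc (B : ℤ) * B ≤ (Y ^ 1693 * S) * (Y ^ 1693 * S) :=
          mul_le_mul h6 h6 hB0.le (by positivity)
        _ = Y ^ 3386 * S ^ 2 := by ring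
        _ ≤ Y ^ 3386 * (Y ^ 842 * B) := mul_le_mul_of_nonneg_left hSB (by positivity)
        _ = Y ^ 4228 * B := by ring
    exact le_of_mul_le_mul_right h7 hB0

/-- The end: `c ≤ 16 P B` with `P ≤ Y^420`. -/
theorem end_bd {c P B Y : ℕ} (hY : 100 ≤ Y) (hc : c ≤ 16 * (P * B)) (hP : P ≤ Y ^ 420)
    (hB : (B : ℤ) ≤ (Y : ℤ) ^ 4228) : c ≤ Y ^ 5000 := by
  have hB' : B ≤ Y ^ 4228 := by exact_mod_cast hB
  calc c ≤ 16 * (P * B) := hc
    _ ≤ Y * (Y ^ 420 * Y ^ 4228) := Nat.mul_le_mul (by omega) (Nat.mul_le_mul hP hB')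
    _ = Y ^ 4649 := by ring
    _ ≤ Y ^ 5000 := Nat.pow_le_pow_right (by omega) (by norm_num)

/-- `s² ≤ Y^842 B` from `s² = a c + 1`, `c ≤ 16 P B`. -/
theorem sq_bd {a c P B Y s : ℕ} (hY : 100 ≤ Y) (hc : c ≤ 16 * (P * B)) (hP : P ≤ Y ^ 420)
    (ha : a ≤ Y ^ 420) (hB : 0 < B) (hs : s * s = a * c + 1) :
    (s : ℤ) ^ 2 ≤ (Y : ℤ) ^ 842 * B := by
  have h1 : s * s ≤ Y ^ 842 * B := by
    have h2 : a * c ≤ 16 * (Y ^ 840 * B) := by
      calc a * c ≤ Y ^ 420 * (16 * (Y ^ 420 * B)) :=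
          Nat.mul_le_mul ha (hc.trans (Nat.mul_le_mul_left 16 (Nat.mul_le_mul_right B hP)))
        _ = 16 * (Y ^ 840 * B) := by ring
    have h3 : 0 < Y ^ 840 * B := Nat.mul_pos (Nat.pow_pos (by omega)) hB
    calc s * s = a * c + 1 := hs
      _ ≤ 17 * (Y ^ 840 * B) := by omega
      _ ≤ Y * (Y ^ 840 * B) := Nat.mul_le_mul_right _ (by omega)
      _ = Y ^ 841 * B := by ring
      _ ≤ Y ^ 842 * B := Nat.mul_le_mul_right _ (Nat.pow_le_pow_right (by omega) (by norm_num))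
  have h4 : ((s * s : ℕ) : ℤ) ≤ ((Y ^ 842 * B : ℕ) : ℤ) := by exact_mod_cast h1
  push_cast at h4
  rw [sq]; exact h4

/-- A multiple of `c` of absolute value at most `10 Y² c`. -/
theorem quot_bd {c k X Y : ℤ} (hc : 0 < c) (hX : |X| ≤ 10 * Y ^ 2 * c) (h : X = c * k) :
    |k| ≤ 10 * Y ^ 2 := by
  rw [h, abs_mul, abs_of_pos hc, mul_comm] at hX
  exact le_of_mul_le_mul_right hX hc

/-- Bounds for the coefficients. -/
theorem coef_bd {k P Y u : ℤ} (hY : 100 ≤ Y) (hk : |k| ≤ 10 * Y ^ 2) (hP0 : 0 ≤ P)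
    (hP : P ≤ Y ^ 420) (hu0 : 0 ≤ u) (hu : u * u = P + 1) :
    |k * (1 + 2 * P)| ≤ 23 * Y ^ 422 ∧ |2 * u * k| ≤ 21 * Y ^ 422 ∧ u ≤ 2 * Y ^ 420 := by
  have hY1 : 1 ≤ Y := by linarith
  have h1 : (1 : ℤ) ≤ Y ^ 420 := one_le_pow₀ hY1
  have hu1 : u ≤ P + 1 := by nlinarith
  have hY2 : 0 ≤ 10 * Y ^ 2 := by positivity
  refine ⟨?_, ?_, by linarith⟩
  · rw [abs_mul, abs_of_nonneg (by linarith : (0 : ℤ) ≤ 1 + 2 * P)]
    have h2 : |k| * (1 + 2 * P) ≤ 10 * Y ^ 2 * (3 * Y ^ 420) := by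
      refine mul_le_mul hk ?_ (by linarith) hY2
      linarith
    have h3 : 10 * Y ^ 2 * (3 * Y ^ 420) = 30 * Y ^ 422 := by ring
    have h4 : |k| * (1 + 2 * P) ≤ 10 * Y ^ 2 * (1 + 2 * Y ^ 420) :=
      mul_le_mul hk (by linarith) (by linarith) hY2
    have h5 : 10 * Y ^ 2 * (1 + 2 * Y ^ 420) = 10 * Y ^ 2 + 20 * Y ^ 422 := by ring
    have h6 : 10 * Y ^ 2 ≤ 3 * Y ^ 422 := by
      have h7 : (100 : ℤ) ≤ Y ^ 420 := by
        calc (100 : ℤ) ≤ Y := hY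
          _ = Y ^ 1 := (pow_one Y).symm
          _ ≤ Y ^ 420 := pow_le_pow_right₀ hY1 (by norm_num)
      have h8 : Y ^ 422 = Y ^ 420 * Y ^ 2 := by ring
      have h9 : (0 : ℤ) ≤ Y ^ 2 := by positivity
      nlinarith
    linarith
  · have h2 : |2 * u * k| = 2 * u * |k| := by
      rw [abs_mul, abs_of_nonneg (by linarith : (0 : ℤ) ≤ 2 * u)]
    rw [h2]
    have h4 : 2 * u * |k| ≤ 2 * (Y ^ 420 + 1) * (10 * Y ^ 2) :=
      mul_le_mul (by linarith) hk (abs_nonneg k) (by linarith)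
    have h5 : 2 * (Y ^ 420 + 1) * (10 * Y ^ 2) = 20 * Y ^ 2 + 20 * Y ^ 422 := by ring
    have h6 : 20 * Y ^ 2 ≤ Y ^ 422 := by
      have h7 : (100 : ℤ) ≤ Y ^ 420 := by
        calc (100 : ℤ) ≤ Y := hY
          _ = Y ^ 1 := (pow_one Y).symm
          _ ≤ Y ^ 420 := pow_le_pow_right₀ hY1 (by norm_num)
      have h8 : Y ^ 422 = Y ^ 420 * Y ^ 2 := by ring
      have h9 : (0 : ℤ) ≤ Y ^ 2 := by positivity
      nlinarith
    linarith

/-- The relation is at most `10 Y² c`. -/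
theorem rel_bd {a b g s c m n Y e : ℤ} (ha0 : 0 ≤ a) (ha : a ≤ c) (hb0 : 0 ≤ b) (hb : b ≤ c)
    (hg0 : 0 ≤ g) (hg : g ≤ c) (hs0 : 0 ≤ s) (hs : s ≤ c) (hm0 : 0 ≤ m) (hm : m ≤ Y)
    (hn0 : 0 ≤ n) (hn : n ≤ Y) (hY : 1 ≤ Y) (he : e = 1 ∨ e = -1) :
    |2 * e * a * m * (m + 1) + s * (2 * m + 1) - 2 * e * b * n ^ 2 - (a + b - g) * n| ≤
      10 * Y ^ 2 * c := by
  have hc : 0 ≤ c := ha0.trans ha
  have p1 : 0 ≤ a * m * (m + 1) := by positivity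
  have q1 := mul_bd1 ha hm0 hm hc
  have p2 : 0 ≤ s * (2 * m + 1) := by positivity
  have q2 : s * (2 * m + 1) ≤ c * (2 * Y + 1) :=
    mul_le_mul hs (by linarith) (by linarith) hc
  have p3 : 0 ≤ b * n ^ 2 := by positivity
  have q3 := mul_bd2 hb hn0 hn hc
  have p4 : 0 ≤ a * n := by positivity
  have q4 : a * n ≤ c * Y := mul_le_mul ha hn hn0 hc
  have p5 : 0 ≤ b * n := by positivity
  have q5 : b * n ≤ c * Y := mul_le_mul hb hn hn0 hc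
  have p6 : 0 ≤ g * n := by positivity
  have q6 : g * n ≤ c * Y := mul_le_mul hg hn hn0 hc
  have r1 : c * Y ≤ c * Y ^ 2 := mul_le_mul_of_nonneg_left (by nlinarith) hc
  have r2 : c ≤ c * Y := le_mul_of_one_le_right hc hY
  have r3 : c * Y * (Y + 1) = c * Y ^ 2 + c * Y := by ring
  have r4 : c * (2 * Y + 1) = 2 * (c * Y) + c := by ring
  have r5 : 10 * Y ^ 2 * c = 10 * (c * Y ^ 2) := by ring
  have key : 2 * e * a * m * (m + 1) + s * (2 * m + 1) - 2 * e * b * n ^ 2 - (a + b - g) * n =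
      2 * e * (a * m * (m + 1)) + s * (2 * m + 1) - 2 * e * (b * n ^ 2) - a * n - b * n +
        g * n := by ring
  rw [key, r5, abs_le]
  rcases he with rfl | rfl
  · constructor <;> linarith
  · constructor <;> linarith

/-- Bound of the remaining terms. -/
theorem rest_bd {P1 P2 P3 P4 P5 P6 Q Y e S : ℤ} (hY : 100 ≤ Y) (he : e = 1 ∨ e = -1)
    (p1 : 0 ≤ P1) (q1 : P1 ≤ Y ^ 420 * Y * (Y + 1)) (p2 : 0 ≤ P2) (q2 : P2 ≤ 3 * Y * S)
    (p3 : 0 ≤ P3) (q3 : P3 ≤ Y ^ 420 * Y ^ 2) (p4 : 0 ≤ P4) (q4 : P4 ≤ Y ^ 420 * Y)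
    (p5 : 0 ≤ P5) (q5 : P5 ≤ Y ^ 420 * Y) (p6 : 0 ≤ P6) (q6 : P6 ≤ Y ^ 420 * Y)
    (hQ : |Q| ≤ 10 * Y ^ 2 * (2 * Y ^ 420)) :
    |-(2 * e * P1 + P2 - 2 * e * P3 - P4 - P5 + P6) + Q| ≤ Y ^ 423 + 3 * Y * S := by
  obtain ⟨T, hT⟩ : ∃ T : ℤ, T = Y ^ 420 := ⟨_, rfl⟩
  have hT0 : 0 ≤ T := by rw [hT]; positivity
  have r5 : 100 * (T * Y ^ 2) ≤ Y ^ 423 := by
    have : Y ^ 423 = Y * (T * Y ^ 2) := by rw [hT]; ring
    rw [this]
    exact mul_le_mul_of_nonneg_right hY (by positivity)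
  rw [← hT] at q1 q3 q4 q5 q6 hQ
  have r1 : T * Y ≤ T * Y ^ 2 := mul_le_mul_of_nonneg_left (by nlinarith) hT0
  have r3 : T * Y * (Y + 1) = T * Y ^ 2 + T * Y := by ring
  have r4 : 10 * Y ^ 2 * (2 * T) = 20 * (T * Y ^ 2) := by ring
  have r6 : 0 ≤ T * Y ^ 2 := by positivity
  have r7 : 0 ≤ 3 * Y * S := p2.trans q2
  rw [r4, abs_le] at hQ
  obtain ⟨h1, h2⟩ := hQ
  rw [abs_le]
  rcases he with rfl | rfl
  · constructor <;> linarith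
  · constructor <;> linarith

theorem small_bd {Y : ℤ} (hY : 100 ≤ Y) : Y ^ 2 ≤ Y ^ 422 ∧ 100 * Y ^ 422 ≤ Y ^ 423 := by
  constructor
  · exact pow_le_pow_right₀ (by linarith) (by norm_num)
  · have : Y ^ 423 = Y * Y ^ 422 := by ring
    rw [this]
    exact mul_le_mul_of_nonneg_right hY (by positivity)

theorem quot_mul_bd {k a l Y : ℤ} (hk : |k| ≤ 10 * Y ^ 2) (ha0 : 0 ≤ a) (ha : a ≤ Y ^ 420)
    (hl0 : 0 ≤ l) (hl : l ≤ Y ^ 420) : |k * (a + l)| ≤ 10 * Y ^ 2 * (2 * Y ^ 420) := by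
  rw [abs_mul, abs_of_nonneg (by linarith : (0 : ℤ) ≤ a + l)]
  exact mul_le_mul hk (by linarith) (by linarith) (by positivity)

end Pool.Agent.DIO.H50
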